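import Pool.Agent.W805.LR.Stm5

set_option autoImplicit false

/-! # PD-TR: removal of points and traces of permutations -/

namespace Pool.Agent.W460.PD.TR

open Finset Equiv Pool.Agent.W805.PD

variable {V : Type} [Fintype V] [DecidableEq V]

omit [Fintype V] in
theorem rem_self (h : Perm V) (a : V) : rem h a a = a := by
  simp [rem]

omit [Fintype V] in
theorem rem_apply (h : Perm V) (a x : V) :
    rem h a x = if x = a then a else if h x = a then h a else h x := by
  by_cases hx : x = a
  · subst hx; simp [rem]
  · rw [if_neg hx]
    by_cases h1 : h x = a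
    · rw [if_pos h1]
      simp [rem, h1]
    · rw [if_neg h1]
      have h2 : h x ≠ h a := fun h3 => hx (h.injective h3)
      simp [rem, swap_apply_of_ne_of_ne h1 h2]

omit [Fintype V] in
theorem rem_comm (h : Perm V) (a b : V) : rem (rem h a) b = rem (rem h b) a := by
  by_cases hab : a = b
  · subst hab; rfl
  ext x
  by_cases hxa : x = a
  · subst hxa
    rw [rem_apply, rem_self, if_neg hab, if_neg hab, rem_self]
  by_cases hxb : x = b
  · subst hxb
    rw [rem_self, rem_apply (rem h x) a x, rem_self, if_neg hxa, if_neg hxa]
  have hba : b ≠ a := fun h => hab h.symm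
  have e1 : rem h a x = if h x = a then h a else h x := by rw [rem_apply, if_neg hxa]
  have e2 : rem h b x = if h x = b then h b else h x := by rw [rem_apply, if_neg hxb]
  have e3 : rem h a b = if h b = a then h a else h b := by rw [rem_apply, if_neg hba]
  have e4 : rem h b a = if h a = b then h b else h a := by rw [rem_apply, if_neg hab]
  rw [rem_apply (rem h a) b x, rem_apply (rem h b) a x, if_neg hxb, if_neg hxa, e1, e2, e3, e4]
  by_cases h1 : h x = a
  · have h2 : h b ≠ a := fun h3 => hxb (h.injective (h1.trans h3.symm))
    rw [if_pos h1, if_neg (show h x ≠ b from fun h3 => hab (h1.symm.trans h3)), if_pos h1,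
      if_neg h2]
  · rw [if_neg h1]
    by_cases h2 : h x = b
    · have h3 : h a ≠ b := fun h4 => hxa (h.injective (h2.trans h4.symm))
      rw [if_pos h2, if_pos h2, if_neg h3]
    · rw [if_neg h2, if_neg h2, if_neg h1]

omit [Fintype V] in
theorem rem_mul (h s : Perm V) (a : V) (hs : s a = a) : rem (s * h) a = s * rem h a := by
  have h1 : swap a (s (h a)) = s * swap a (h a) * s⁻¹ := by
    have := Equiv.swap_apply_apply s a (h a)
    rw [hs] at this
    exact this
  simp only [rem, Perm.mul_apply]
  rw [h1]
  group

omit [Fintype V] in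
theorem rem_of_fixed (h : Perm V) (a : V) (ha : h a = a) : rem h a = h := by
  unfold rem
  rw [ha, swap_self]
  rfl

omit [Fintype V] in
theorem rem_ne (h : Perm V) {a x : V} (hx : x ≠ a) : rem h a x ≠ a := by
  intro h1
  exact hx ((rem h a).injective (h1.trans (rem_self h a).symm))

omit [Fintype V] in
theorem sameCycle_rem_step (h : Perm V) {a x : V} (hx : x ≠ a) : h.SameCycle x (rem h a x) := by
  rw [rem_apply, if_neg hx]
  by_cases h1 : h x = a
  · rw [if_pos h1, ← h1]
    exact ⟨2, by rw [zpow_ofNat, pow_two]; rfl⟩
  · rw [if_neg h1]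
    exact ⟨1, by simp⟩

theorem sameCycle_rem (h : Perm V) {a x y : V} (hx : x ≠ a) (hy : y ≠ a) :
    (rem h a).SameCycle x y ↔ h.SameCycle x y := by
  constructor
  · intro hs
    obtain ⟨n, hn⟩ := hs.exists_nat_pow_eq
    clear hs
    induction n generalizing x with
    | zero => simp at hn; rw [hn]
    | succ n ih =>
      rw [pow_succ, Perm.mul_apply] at hn
      exact (sameCycle_rem_step h hx).trans (ih (rem_ne h hx) hn)
  · intro hs
    obtain ⟨n, hn⟩ := hs.exists_nat_pow_eq
    clear hs
    induction n using Nat.strong_induction_on generalizing x with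
    | _ n ih =>
      rcases n with _ | n
      · simp at hn; rw [hn]
      · have hstep : (rem h a).SameCycle x (rem h a x) := ⟨1, by simp⟩
        by_cases h1 : h x = a
        · rcases n with _ | n
          · simp at hn
            exact absurd (hn.symm.trans h1) hy
          · rw [pow_succ, Perm.mul_apply, pow_succ, Perm.mul_apply, h1] at hn
            have h2 : rem h a x = h a := by rw [rem_apply, if_neg hx, if_pos h1]
            have h3 : h a ≠ a := h2 ▸ rem_ne h hx
            exact hstep.trans (by rw [h2]; exact ih n (by omega) h3 hn)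
        · rw [pow_succ, Perm.mul_apply] at hn
          have h2 : rem h a x = h x := by rw [rem_apply, if_neg hx, if_neg h1]
          exact hstep.trans (by rw [h2]; exact ih n (by omega) h1 hn)

/-! ## Lists -/

omit [Fintype V] in
theorem foldl_perm {l l' : List V} (h : Perm V) (hl : l.Perm l') :
    l.foldl rem h = l'.foldl rem h :=
  hl.foldl_eq' (fun x _ y _ z => rem_comm z x y) h

omit [Fintype V] in
theorem foldl_rem (l : List V) (h : Perm V) (a : V) :
    l.foldl rem (rem h a) = rem (l.foldl rem h) a := by
  induction l generalizing h with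
  | nil => rfl
  | cons b l ih => rw [List.foldl_cons, List.foldl_cons, rem_comm, ih]

omit [Fintype V] in
theorem foldl_fixed (l : List V) (h : Perm V) (hl : ∀ x ∈ l, h x = x) : l.foldl rem h = h := by
  induction l with
  | nil => rfl
  | cons b l ih =>
    rw [List.foldl_cons, rem_of_fixed h b (hl b (by simp))]
    exact ih fun x hx => hl x (by simp [hx])

omit [Fintype V] in
theorem rem_fixed' (h : Perm V) {a x : V} (hx : h x = x) : rem h a x = x := by
  rw [rem_apply]
  split_ifs with h1 h2
  · exact h1.symm
  · exact absurd (hx.symm.trans h2) h1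
  · exact hx

omit [Fintype V] in
theorem foldl_apply (l : List V) (h : Perm V) (x : V) (hx : x ∈ l ∨ h x = x) :
    l.foldl rem h x = x := by
  induction l generalizing h with
  | nil => simpa using hx
  | cons b l ih =>
    rw [List.foldl_cons]
    apply ih
    rcases hx with hx | hx
    · rcases List.mem_cons.mp hx with h1 | h1
      · right; rw [h1]; exact rem_self h b
      · left; exact h1
    · right; exact rem_fixed' h hx

omit [Fintype V] in
theorem foldl_mul (l : List V) (h s : Perm V) (hs : ∀ x ∈ l, s x = x) :
    l.foldl rem (s * h) = s * l.foldl rem h := by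
  induction l generalizing h with
  | nil => rfl
  | cons b l ih =>
    rw [List.foldl_cons, List.foldl_cons, rem_mul h s b (hs b (by simp))]
    exact ih _ fun x hx => hs x (by simp [hx])

theorem foldl_sameCycle (l : List V) (h : Perm V) (x y : V) (hx : x ∉ l) (hy : y ∉ l) :
    (l.foldl rem h).SameCycle x y ↔ h.SameCycle x y := by
  induction l generalizing h with
  | nil => rfl
  | cons b l ih =>
    simp only [List.mem_cons, not_or] at hx hy
    rw [List.foldl_cons, ih _ hx.2 hy.2, sameCycle_rem h hx.1 hy.1]

/-! ## Traces -/

theorem tr_fixed (h : Perm V) (A : Finset V) (hA : ∀ x, x ∉ A → h x = x) : tr h A = h :=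
  foldl_fixed _ _ fun x hx => hA x (by simpa using hx)

theorem tr_apply (h : Perm V) (A : Finset V) (x : V) (hx : x ∉ A) : tr h A x = x :=
  foldl_apply _ _ _ (Or.inl (by simpa using hx))

theorem tr_erase (h : Perm V) (A : Finset V) (a : V) : tr h (A.erase a) = rem (tr h A) a := by
  by_cases ha : a ∈ A
  · have h1 : (A.erase a)ᶜ = insert a Aᶜ := Finset.compl_erase
    have h2 : ((A.erase a)ᶜ).toList.Perm (a :: (Aᶜ).toList) := by
      rw [h1]
      exact Finset.toList_insert (by simpa using ha)
    unfold tr
    rw [foldl_perm h h2, List.foldl_cons, foldl_rem]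
  · rw [Finset.erase_eq_of_notMem ha, rem_of_fixed _ _ (tr_apply h A a ha)]

theorem tr_tr (h : Perm V) (A B : Finset V) (hAB : A ⊆ B) : tr (tr h B) A = tr h A := by
  have h1 : (Aᶜ).toList.Perm ((Bᶜ).toList ++ (B \ A).toList) := by
    rw [List.perm_ext_iff_of_nodup (Finset.nodup_toList _)]
    · intro x
      simp only [Finset.mem_toList, Finset.mem_compl, List.mem_append, Finset.mem_sdiff]
      constructor
      · intro hx
        by_cases hB : x ∈ B
        · exact Or.inr ⟨hB, hx⟩
        · exact Or.inl hB
      · rintro (hx | hx)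
        · exact fun h => hx (hAB h)
        · exact hx.2
    · rw [List.nodup_append]
      refine ⟨Finset.nodup_toList _, Finset.nodup_toList _, ?_⟩
      intro x hx y hy hxy
      simp only [Finset.mem_toList, Finset.mem_compl, Finset.mem_sdiff] at hx hy
      exact hx (hxy ▸ hy.1)
  have h2 : ∀ g : Perm V, tr g A = (B \ A).toList.foldl rem (tr g B) := by
    intro g
    unfold tr
    rw [foldl_perm g h1, List.foldl_append]
  rw [h2, h2, tr_fixed (tr h B) B fun x hx => tr_apply h B x hx]

theorem main : S_tr := by
  intro V _ _
  refine ⟨rem_comm, rem_mul, fun h a x y hx hy => sameCycle_rem h hx hy, tr_fixed, tr_apply,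
    fun h s A hs => foldl_mul _ h s fun x hx => hs x (by simpa using hx), tr_erase, tr_tr,
    fun h A x y hx hy => foldl_sameCycle _ h x y (by simpa using hx) (by simpa using hy)⟩

end Pool.Agent.W460.PD.TR
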